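import Pool.Agent.J4H4.NG.Stm

/-! Project NG of helper4: the number of the zeros in boxes (Jensen). -/

set_option autoImplicit false

namespace Pool.Agent.J4H52.NG

open Complex MeasureTheory Filter Topology Set
open Pool.Agent.J4H4.NG

/-- Jensen with the bounds -/
theorem gen (hJ : S_JEN) {a : ℝ} (ha : 0 < a) (hdiff : Differentiable ℂ (EE a)) {C₁ C₂ V₁ V₂ : ℝ} (hC₁ : 0 < C₁)
    (hC₂ : 0 < C₂)
    (hU : ∀ v : ℝ, V₁ ≤ v → ∀ η : ℝ,
      ‖EE a (((3 / 2 + η : ℝ) : ℂ) + I * v)‖ ≤ C₁ * Real.exp (η ^ 2 / (4 * a)) * ‖gam (2 + I * v)‖)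
    (hG : ∀ v v' : ℝ, V₂ ≤ v → V₂ ≤ v' → gam (2 + I * v) ≠ 0 ∧
      ‖gam (2 + I * v')‖ ≤ C₂ * (1 + |v' - v|) ^ 5 * Real.exp (Real.pi * |v' - v| / 4) * ‖gam (2 + I * v)‖)
    {v η ρ B m M : ℝ} (hρ : 0 < ρ) (hη : |η| + 2 * ρ ≤ B) (hv₁ : V₁ ≤ v - 2 * ρ) (hv₂ : V₂ ≤ v - 2 * ρ)
    (hm : 0 < m) (hlow : m * ‖gam (2 + I * v)‖ ≤ ‖EE a (((3 / 2 + η : ℝ) : ℂ) + I * v)‖)
    (hM : C₁ * C₂ * (1 + 2 * ρ) ^ 5 * Real.exp (Real.pi * (2 * ρ) / 4) * Real.exp (B ^ 2 / (4 * a)) ≤ Real.exp M * m)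
    (S : Finset ℂ) (hS : ∀ w ∈ S, EE a w = 0 ∧ ‖w - (((3 / 2 + η : ℝ) : ℂ) + I * v)‖ ≤ ρ) :
    ∑ w ∈ S, (analyticOrderNatAt (EE a) w : ℝ) ≤ M / Real.log 2 := by
  set c : ℂ := ((3 / 2 + η : ℝ) : ℂ) + I * v with hc
  have hgam : gam (2 + I * v) ≠ 0 := (hG v v (by linarith) (by linarith)).1
  have hgam0 : 0 < ‖gam (2 + I * v)‖ := norm_pos_iff.2 hgam
  have hc0 : EE a c ≠ 0 := by
    rw [← norm_pos_iff]
    exact lt_of_lt_of_le (mul_pos hm hgam0) hlow
  refine hJ (EE a) c ρ M hdiff hρ hc0 ?_ S hS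
  intro w hw
  have hcre : c.re = 3 / 2 + η := by
    rw [hc]
    simp
  have hcim : c.im = v := by
    rw [hc]
    simp
  have hre : |w.re - c.re| ≤ 2 * ρ := by
    have := Complex.abs_re_le_norm (w - c)
    rw [Complex.sub_re] at this
    exact this.trans hw
  have him : |w.im - c.im| ≤ 2 * ρ := by
    have := Complex.abs_im_le_norm (w - c)
    rw [Complex.sub_im] at this
    exact this.trans hw
  rw [hcre] at hre
  rw [hcim] at him
  have hw2 : w = ((3 / 2 + (w.re - 3 / 2) : ℝ) : ℂ) + I * (w.im : ℝ) := by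
    apply Complex.ext <;> simp
  have hvw : v - 2 * ρ ≤ w.im := by
    have := (abs_le.1 him).1
    linarith
  have h1 := hU w.im (by linarith) (w.re - 3 / 2)
  rw [← hw2] at h1
  have h2 := (hG v w.im (by linarith) (by linarith)).2
  have hB : (w.re - 3 / 2) ^ 2 ≤ B ^ 2 := by
    rw [← sq_abs (w.re - 3 / 2)]
    refine pow_le_pow_left₀ (abs_nonneg _) ?_ 2
    have h3 : w.re - 3 / 2 = (w.re - (3 / 2 + η)) + η := by ring
    rw [h3]
    refine (abs_add_le _ _).trans ?_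
    linarith
  have hE : Real.exp ((w.re - 3 / 2) ^ 2 / (4 * a)) ≤ Real.exp (B ^ 2 / (4 * a)) := by
    refine Real.exp_le_exp.2 ?_
    gcongr
  have hP : (1 + |w.im - v|) ^ 5 ≤ (1 + 2 * ρ) ^ 5 := by
    refine pow_le_pow_left₀ (by positivity) (by linarith) 5
  have hE2 : Real.exp (Real.pi * |w.im - v| / 4) ≤ Real.exp (Real.pi * (2 * ρ) / 4) := by
    refine Real.exp_le_exp.2 ?_
    have := Real.pi_pos
    gcongr
  calc ‖EE a w‖ ≤ C₁ * Real.exp ((w.re - 3 / 2) ^ 2 / (4 * a)) * ‖gam (2 + I * w.im)‖ := h1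
    _ ≤ C₁ * Real.exp (B ^ 2 / (4 * a)) *
        (C₂ * (1 + 2 * ρ) ^ 5 * Real.exp (Real.pi * (2 * ρ) / 4) * ‖gam (2 + I * v)‖) := by
        refine mul_le_mul (mul_le_mul_of_nonneg_left hE hC₁.le) ?_ (norm_nonneg _) (by positivity)
        refine h2.trans ?_
        refine mul_le_mul_of_nonneg_right ?_ (norm_nonneg _)
        exact mul_le_mul (mul_le_mul_of_nonneg_left hP hC₂.le) hE2 (Real.exp_pos _).le (by positivity)
    _ = (C₁ * C₂ * (1 + 2 * ρ) ^ 5 * Real.exp (Real.pi * (2 * ρ) / 4) * Real.exp (B ^ 2 / (4 * a))) *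
        ‖gam (2 + I * v)‖ := by ring
    _ ≤ (Real.exp M * m) * ‖gam (2 + I * v)‖ := mul_le_mul_of_nonneg_right hM (norm_nonneg _)
    _ = Real.exp M * (m * ‖gam (2 + I * v)‖) := by ring
    _ ≤ Real.exp M * ‖EE a c‖ := mul_le_mul_of_nonneg_left hlow (Real.exp_pos _).le

/-- the polynomial factor -/
theorem poly_le {x : ℝ} (hx : 0 ≤ x) : (1 + x) ^ 5 ≤ Real.exp (5 * x) := by
  have h1 : 1 + x ≤ Real.exp x := by
    have := Real.add_one_le_exp x
    linarith
  calc (1 + x) ^ 5 ≤ (Real.exp x) ^ 5 := pow_le_pow_left₀ (by linarith) h1 5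
    _ = Real.exp (5 * x) := by
      rw [← Real.exp_nat_mul]
      norm_num

theorem log_small (A : ℝ) (hA : 0 < A) (V : ℝ) : ∀ᶠ v : ℝ in atTop, V ≤ v - A * Real.log v := by
  have h1 := Real.isLittleO_log_id_atTop.bound (show (0 : ℝ) < 1 / (2 * A) by positivity)
  filter_upwards [h1, eventually_ge_atTop (max 1 (2 * V)), eventually_ge_atTop (0 : ℝ)] with v hv hv2 hv3
  have h2 : Real.log v ≤ 1 / (2 * A) * v := by
    have h3 : |Real.log v| ≤ 1 / (2 * A) * |v| := hv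
    rw [abs_of_nonneg hv3] at h3
    exact (le_abs_self _).trans h3
  have h4 : A * Real.log v ≤ v / 2 := by
    calc A * Real.log v ≤ A * (1 / (2 * A) * v) := mul_le_mul_of_nonneg_left h2 hA.le
      _ = v / 2 := by field_simp
  have h5 : 2 * V ≤ v := (le_max_right _ _).trans hv2
  linarith

theorem t_BOX' (hJ : S_JEN) (hGam : S_GAM) (hUpb : S_UPB) (hFar : S_FAR)
    (hdiff : ∀ a : ℝ, 0 < a → Differentiable ℂ (EE a)) : S_BOX := by
  intro a ha
  obtain ⟨C₂, V₂, hC₂, hV₂, hG⟩ := hGam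
  obtain ⟨C₁, V₁, hC₁, hV₁, hU⟩ := hUpb a ha
  obtain ⟨c₀, V₃, hc₀, hV₃, hF⟩ := hFar a ha
  have hC₂0 : 0 < C₂ := by linarith
  set K : ℝ := Real.log (C₁ * C₂ / c₀) with hK
  have hev : ∀ᶠ v : ℝ in atTop, max V₁ V₂ ≤ v - 6 * a * Real.log v ∧
      max 100 (max (25 * |K| / a) (20 / a)) ≤ Real.log v ∧ max V₃ 10 ≤ v :=
    (log_small (6 * a) (by positivity) _).and
      ((Real.tendsto_log_atTop.eventually_ge_atTop _).and (eventually_ge_atTop _))
  obtain ⟨V₀, hV₀⟩ := eventually_atTop.1 hev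
  refine ⟨max V₀ 1, le_max_right _ _, ?_⟩
  intro v hv S hS
  obtain ⟨h1, h2, h3⟩ := hV₀ v ((le_max_left _ _).trans hv)
  set L := Real.log v with hL
  have hL100 : 100 ≤ L := (le_max_left _ _).trans h2
  have hLK : 25 * |K| / a ≤ L := (le_max_left _ _).trans ((le_max_right _ _).trans h2)
  have hLa : 20 / a ≤ L := (le_max_right _ _).trans ((le_max_right _ _).trans h2)
  have hv10 : 10 ≤ v := (le_max_right _ _).trans h3
  have hv3 : V₃ ≤ v := (le_max_left _ _).trans h3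
  have haL : 20 ≤ a * L := by
    rw [div_le_iff₀ ha] at hLa
    linarith
  have haK : 25 * |K| ≤ a * L := by
    rw [div_le_iff₀ ha] at hLK
    linarith
  -- the centre
  have hpi := Real.pi_gt_three
  have hpi4 := Real.pi_lt_d2
  have hlog0 : 0 ≤ Real.log (v / (2 * Real.pi)) := by
    apply Real.log_nonneg
    rw [le_div_iff₀ (by positivity)]
    linarith
  have hlog1 : Real.log (v / (2 * Real.pi)) ≤ L := by
    refine Real.log_le_log (by positivity) ?_
    rw [div_le_iff₀ (by positivity)]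
    nlinarith
  set η : ℝ := a * Real.log (v / (2 * Real.pi)) + 2 with hη
  have hη0 : 0 ≤ η := by positivity
  have hη1 : η ≤ a * L + 2 := by
    have := mul_le_mul_of_nonneg_left hlog1 ha.le
    linarith
  have hM : C₁ * C₂ * (1 + 2 * (3 * (a * L))) ^ 5 * Real.exp (Real.pi * (2 * (3 * (a * L))) / 4) *
      Real.exp ((71 / 10 * (a * L)) ^ 2 / (4 * a)) ≤ Real.exp (13 * a * L ^ 2) * c₀ := by
    have e1 : C₁ * C₂ = Real.exp K * c₀ := by
      rw [hK, Real.exp_log (by positivity)]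
      field_simp
    have e2 := poly_le (show (0 : ℝ) ≤ 2 * (3 * (a * L)) by positivity)
    have e3 : Real.exp K * Real.exp (5 * (2 * (3 * (a * L)))) * Real.exp (Real.pi * (2 * (3 * (a * L))) / 4) *
      Real.exp ((71 / 10 * (a * L)) ^ 2 / (4 * a)) ≤ Real.exp (13 * a * L ^ 2) := by
      rw [← Real.exp_add, ← Real.exp_add, ← Real.exp_add]
      refine Real.exp_le_exp.2 ?_
      have f1 : (71 / 10 * (a * L)) ^ 2 / (4 * a) = 5041 / 400 * (a * L ^ 2) := by
        field_simp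
        ring
      rw [f1]
      have f2 : K ≤ |K| := le_abs_self _
      have f3 : Real.pi * (2 * (3 * (a * L))) / 4 ≤ 48 / 10 * (a * L) := by nlinarith
      have f4 : a * L * 100 ≤ a * L * L := mul_le_mul_of_nonneg_left hL100 (by positivity)
      have f5 : a * L ^ 2 = a * L * L := by ring
      rw [show 13 * a * L ^ 2 = 13 * (a * L * L) by ring, f5]
      nlinarith
    calc _ = (Real.exp K * (1 + 2 * (3 * (a * L))) ^ 5 * Real.exp (Real.pi * (2 * (3 * (a * L))) / 4) *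
          Real.exp ((71 / 10 * (a * L)) ^ 2 / (4 * a))) * c₀ := by rw [e1]; ring
      _ ≤ (Real.exp K * Real.exp (5 * (2 * (3 * (a * L)))) * Real.exp (Real.pi * (2 * (3 * (a * L))) / 4) *
          Real.exp ((71 / 10 * (a * L)) ^ 2 / (4 * a))) * c₀ := by
          refine mul_le_mul_of_nonneg_right ?_ hc₀.le
          refine mul_le_mul_of_nonneg_right ?_ (Real.exp_pos _).le
          refine mul_le_mul_of_nonneg_right ?_ (Real.exp_pos _).le
          exact mul_le_mul_of_nonneg_left e2 (Real.exp_pos _).le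
      _ ≤ _ := mul_le_mul_of_nonneg_right e3 hc₀.le
  have hmax1 : V₁ ≤ v - 6 * a * L := (le_max_left _ _).trans h1
  have hmax2 : V₂ ≤ v - 6 * a * L := (le_max_right _ _).trans h1
  have key := gen hJ ha (hdiff a ha) hC₁ hC₂0 hU hG (v := v) (η := η) (ρ := 3 * (a * L)) (B := 71 / 10 * (a * L))
    (m := c₀) (M := 13 * a * L ^ 2) (by positivity) (by rw [abs_of_nonneg hη0]; linarith) (by linarith)
    (by linarith) hc₀ (hF v hv3) hM S (by
      intro w hw
      obtain ⟨g1, g2, g3⟩ := hS w hw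
      refine ⟨g1, ?_⟩
      rw [Complex.norm_eq_sqrt_sq_add_sq]
      refine Real.sqrt_le_iff.2 ⟨by positivity, ?_⟩
      have k1 : (w - (((3 / 2 + η : ℝ) : ℂ) + I * v)).re = w.re - (3 / 2 + η) := by simp
      have k2 : (w - (((3 / 2 + η : ℝ) : ℂ) + I * v)).im = w.im - v := by simp
      rw [k1, k2]
      have k3 : |w.re - (3 / 2 + η)| ≤ 2 * (a * L) + 7 / 2 := by
        rw [abs_le] at g2 ⊢
        constructor <;> linarith [g2.1, g2.2]
      have k4 : (w.re - (3 / 2 + η)) ^ 2 ≤ (2 * (a * L) + 7 / 2) ^ 2 := by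
        rw [← sq_abs (w.re - (3 / 2 + η))]
        exact pow_le_pow_left₀ (abs_nonneg _) k3 2
      have k5 : (w.im - v) ^ 2 ≤ (a * L) ^ 2 := by
        rw [← sq_abs (w.im - v)]
        exact pow_le_pow_left₀ (abs_nonneg _) g3 2
      nlinarith)
  refine key.trans ?_
  have hl2 := Real.log_two_gt_d9
  rw [div_le_iff₀ (by linarith)]
  have : 0 < a * L ^ 2 := by positivity
  nlinarith

theorem t_BOX (hR : S_REP) (hJ : S_JEN) (hGam : S_GAM) (hUpb : S_UPB) (hFar : S_FAR) : S_BOX :=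
  t_BOX' hJ hGam hUpb hFar fun a ha => by
    have := (hR (4 * a) (by positivity)).2.1
    rwa [mul_div_cancel_left₀ a (by norm_num : (4 : ℝ) ≠ 0)] at this

theorem t_GBOX' (hJ : S_JEN) (hGam : S_GAM) (hUpb : S_UPB)
    (hdiff : ∀ a : ℝ, 0 < a → Differentiable ℂ (EE a)) : S_GBOX := by
  intro a κ ha hκ
  obtain ⟨C₂, V₂, hC₂, hV₂, hG⟩ := hGam
  obtain ⟨C₁, V₁, hC₁, hV₁, hU⟩ := hUpb a ha
  have hC₂0 : 0 < C₂ := by linarith
  set K : ℝ := Real.log (C₁ * C₂) with hK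
  set θ : ℝ := κ ^ 2 / a with hθ
  have hθ0 : 0 < θ := by positivity
  have hev : ∀ᶠ v : ℝ in atTop, max V₁ V₂ ≤ v - 6 * κ * Real.log v ∧
      max 1 (max (4 * (|K| + 35 * κ + 1) / θ) (10 / κ)) ≤ Real.log v ∧ 2 ≤ v :=
    (log_small (6 * κ) (by positivity) _).and
      ((Real.tendsto_log_atTop.eventually_ge_atTop _).and (eventually_ge_atTop _))
  obtain ⟨V₀, hV₀⟩ := eventually_atTop.1 hev
  refine ⟨max V₀ 2, le_max_right _ _, ?_⟩
  intro T v η hT hTv hv4 hη0 hη1 hlow S hS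
  obtain ⟨h1, h2, h3⟩ := hV₀ T ((le_max_left _ _).trans hT)
  set L := Real.log T with hL
  have hL1 : 1 ≤ L := (le_max_left _ _).trans h2
  have hLK : 4 * (|K| + 35 * κ + 1) / θ ≤ L := (le_max_left _ _).trans ((le_max_right _ _).trans h2)
  have hLa : 10 / κ ≤ L := (le_max_right _ _).trans ((le_max_right _ _).trans h2)
  have hT0 : 0 < T := by linarith
  have hκL : 10 ≤ κ * L := by
    rw [div_le_iff₀ hκ] at hLa
    linarith
  have hθL : 4 * (|K| + 35 * κ + 1) ≤ L * θ := by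
    rwa [div_le_iff₀ hθ0] at hLK
  have hpi4 := Real.pi_lt_d2
  have hpi := Real.pi_gt_three
  have hexpL : Real.exp L = T := Real.exp_log hT0
  have hM : C₁ * C₂ * (1 + 2 * (3 * (κ * L))) ^ 5 * Real.exp (Real.pi * (2 * (3 * (κ * L))) / 4) *
      Real.exp ((7 * (κ * L)) ^ 2 / (4 * a)) ≤ Real.exp (13 * θ * L ^ 2) * T⁻¹ := by
    have e1 : C₁ * C₂ = Real.exp K := by
      rw [hK, Real.exp_log (by positivity)]
    have e2 := poly_le (show (0 : ℝ) ≤ 2 * (3 * (κ * L)) by positivity)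
    have e4 : T⁻¹ = Real.exp (-L) := by
      rw [Real.exp_neg, hexpL]
    rw [e4, ← Real.exp_add, e1]
    calc _ ≤ Real.exp K * Real.exp (5 * (2 * (3 * (κ * L)))) * Real.exp (Real.pi * (2 * (3 * (κ * L))) / 4) *
          Real.exp ((7 * (κ * L)) ^ 2 / (4 * a)) := by
          refine mul_le_mul_of_nonneg_right ?_ (Real.exp_pos _).le
          refine mul_le_mul_of_nonneg_right ?_ (Real.exp_pos _).le
          exact mul_le_mul_of_nonneg_left e2 (Real.exp_pos _).le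
      _ ≤ _ := by
          rw [← Real.exp_add, ← Real.exp_add, ← Real.exp_add]
          refine Real.exp_le_exp.2 ?_
          have f1 : (7 * (κ * L)) ^ 2 / (4 * a) = 49 / 4 * (θ * L ^ 2) := by
            rw [hθ]
            field_simp
            ring
          rw [f1]
          have f2 : K ≤ |K| := le_abs_self _
          have f3 : Real.pi * (2 * (3 * (κ * L))) / 4 ≤ 48 / 10 * (κ * L) := by nlinarith
          have f4 : 4 * (|K| + 35 * κ + 1) * L ≤ L * θ * L := mul_le_mul_of_nonneg_right hθL (by linarith)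
          have f5 : |K| ≤ |K| * L := le_mul_of_one_le_right (abs_nonneg _) hL1
          have f6 : θ * L ^ 2 = L * θ * L := by ring
          rw [show 13 * θ * L ^ 2 = 13 * (L * θ * L) by ring, f6]
          nlinarith
  have hmax1 : V₁ ≤ T - 6 * κ * L := (le_max_left _ _).trans h1
  have hmax2 : V₂ ≤ T - 6 * κ * L := (le_max_right _ _).trans h1
  have key := gen hJ ha (hdiff a ha) hC₁ hC₂0 hU hG (v := v) (η := η) (ρ := 3 * (κ * L)) (B := 7 * (κ * L))
    (m := T⁻¹) (M := 13 * θ * L ^ 2) (by positivity) (by rw [abs_of_nonneg hη0]; linarith) (by linarith)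
    (by linarith) (by positivity) hlow hM S (by
      intro w hw
      obtain ⟨g1, g2, g3⟩ := hS w hw
      refine ⟨g1, ?_⟩
      rw [Complex.norm_eq_sqrt_sq_add_sq]
      refine Real.sqrt_le_iff.2 ⟨by positivity, ?_⟩
      have k1 : (w - (((3 / 2 + η : ℝ) : ℂ) + I * v)).re = w.re - (3 / 2 + η) := by simp
      have k2 : (w - (((3 / 2 + η : ℝ) : ℂ) + I * v)).im = w.im - v := by simp
      rw [k1, k2]
      have k3 : |w.re - (3 / 2 + η)| ≤ 2 * (κ * L) + 3 / 2 := by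
        rw [abs_le] at g2 ⊢
        constructor <;> linarith [g2.1, g2.2]
      have k4 : (w.re - (3 / 2 + η)) ^ 2 ≤ (2 * (κ * L) + 3 / 2) ^ 2 := by
        rw [← sq_abs (w.re - (3 / 2 + η))]
        exact pow_le_pow_left₀ (abs_nonneg _) k3 2
      have k5 : (w.im - v) ^ 2 ≤ (2 * (κ * L)) ^ 2 := by
        rw [← sq_abs (w.im - v)]
        exact pow_le_pow_left₀ (abs_nonneg _) (by linarith) 2
      nlinarith)
  refine key.trans ?_
  have hl2 := Real.log_two_gt_d9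
  rw [div_le_iff₀ (by linarith)]
  have : 0 < θ * L ^ 2 := by positivity
  nlinarith

theorem t_GBOX (hR : S_REP) (hJ : S_JEN) (hGam : S_GAM) (hUpb : S_UPB) : S_GBOX :=
  t_GBOX' hJ hGam hUpb fun a ha => by
    have := (hR (4 * a) (by positivity)).2.1
    rwa [mul_div_cancel_left₀ a (by norm_num : (4 : ℝ) ≠ 0)] at this

end Pool.Agent.J4H52.NG
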