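import Pool.Agent.J4H4.NG.Stm

/-! Project NG of helper4: zeros near the axis, from good points and boxes. -/

set_option autoImplicit false
set_option maxHeartbeats 4000000

namespace Pool.Agent.J4H52.NG

open Complex MeasureTheory Filter Topology Set
open Pool.Agent.J4H4.NG

theorem log_small' (A : ℝ) (hA : 0 < A) : ∀ᶠ v : ℝ in atTop, Real.log v ≤ A * v := by
  have h1 := Real.isLittleO_log_id_atTop.bound hA
  filter_upwards [h1, eventually_ge_atTop (0 : ℝ)] with v hv hv3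
  have h3 : |Real.log v| ≤ A * |v| := hv
  rw [abs_of_nonneg hv3] at h3
  exact (le_abs_self _).trans h3

theorem t_N : S_N := by
  intro hGood hRepr hBox hGbox a κ ha hκ hκa
  set μ : ℝ := κ / (4 * a) with hμ
  set δ : ℝ := κ ^ 2 / (4 * a ^ 2) with hδ
  have hμ0 : 0 < μ := by positivity
  have hμ1 : μ ≤ 1 / 4 := by
    rw [hμ, div_le_iff₀ (by positivity)]
    linarith
  have hδ0 : 0 < δ := by positivity
  obtain ⟨P, T₁, hP, hT₁, hgood⟩ := hGood a μ κ δ ha hμ0 (by linarith) hκ hδ0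
  obtain ⟨C, V₁, hC, hV₁, hrepr⟩ := hRepr a ha
  obtain ⟨V₂, hV₂, hbox⟩ := hBox a ha
  obtain ⟨T₂, hT₂, hgbox⟩ := hGbox a κ ha hκ
  have hP0 : 0 ≤ Real.log P := Real.log_nonneg (by exact_mod_cast hP)
  have hev : ∀ᶠ T : ℝ in atTop, (max (max T₁ T₂) (max V₁ V₂) ≤ T ∧ 10 ≤ T) ∧
      (Real.log T ≤ 1 / κ * T ∧ Real.log T ≤ 4 * κ / (5 * a ^ 2) * T) ∧
      (C + 1 ≤ T ^ μ ∧ max 7 (2 * (2 * a + 2 * a * Real.log P) / κ) ≤ Real.log T) :=
    ((eventually_ge_atTop _).and (eventually_ge_atTop _)).and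
      (((log_small' _ (by positivity)).and (log_small' _ (by positivity))).and
        (((tendsto_rpow_atTop hμ0).eventually_ge_atTop _).and (Real.tendsto_log_atTop.eventually_ge_atTop _)))
  obtain ⟨V₀, hV₀⟩ := eventually_atTop.1 hev
  refine ⟨max V₀ 2, le_max_right _ _, ?_⟩
  intro T hT S hS
  obtain ⟨⟨hm, hT10⟩, ⟨hl1, hl2⟩, hTμ, hL'⟩ := hV₀ T ((le_max_left _ _).trans hT)
  have hTT₁ : T₁ ≤ T := ((le_max_left _ _).trans (le_max_left _ _)).trans hm
  have hTT₂ : T₂ ≤ T := ((le_max_right _ _).trans (le_max_left _ _)).trans hm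
  have hTV₁ : V₁ ≤ T := ((le_max_left _ _).trans (le_max_right _ _)).trans hm
  have hTV₂ : V₂ ≤ T := ((le_max_right _ _).trans (le_max_right _ _)).trans hm
  set L := Real.log T with hL
  have hL7 : 7 ≤ L := (le_max_left _ _).trans hL'
  have hLP : 2 * (2 * a + 2 * a * Real.log P) / κ ≤ L := (le_max_right _ _).trans hL'
  have hLP' : 2 * (2 * a + 2 * a * Real.log P) ≤ L * κ := by rwa [div_le_iff₀ hκ] at hLP
  have hT0 : 0 < T := by linarith
  have hL0 : 0 < L := by linarith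
  have hκLT : κ * L ≤ T := by
    calc κ * L ≤ κ * (1 / κ * T) := mul_le_mul_of_nonneg_left hl1 hκ.le
      _ = T := by field_simp
  set ℓ : ℝ := κ * L with hℓ
  have hℓ0 : 0 < ℓ := by positivity
  set lam : ℝ := (1 / 2 - μ) * L with hlam
  have hvol := hgood T hTT₁ lam (by rw [hlam]; exact mul_le_mul_of_nonneg_right (by linarith) hL0.le) le_rfl
  set Bad : Set ℝ := {v : ℝ | T ≤ v ∧ v ≤ 2 * T ∧ ∀ b : ℕ, 1 ≤ b → b ≤ P → ∀ u : ℝ, 0 ≤ u → u ≤ κ * Real.log T →
    ‖DD a (lam - Real.log b) (v + u)‖ < T ^ (μ - 1)} with hBad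
  set m : ℂ → ℝ := fun w => (analyticOrderNatAt (EE a) w : ℝ) with hm'
  have hm0 : ∀ w, 0 ≤ m w := fun w => Nat.cast_nonneg _
  set J : ℕ := ⌊T / ℓ⌋₊ with hJ
  have hJ1 : (J : ℝ) ≤ T / ℓ := Nat.floor_le (by positivity)
  have hJ2 : (J : ℝ) * ℓ ≤ T := by rwa [le_div_iff₀ hℓ0] at hJ1
  set idx : ℂ → ℕ := fun w => ⌊(w.im - T) / ℓ⌋₊ with hidx
  have hidx1 : ∀ w ∈ S, T + (idx w : ℝ) * ℓ ≤ w.im ∧ w.im < T + ((idx w : ℝ) + 1) * ℓ := by
    intro w hw
    obtain ⟨_, _, h1, h2⟩ := hS w hw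
    have h3 : ((idx w : ℕ) : ℝ) ≤ (w.im - T) / ℓ := Nat.floor_le (div_nonneg (by linarith) hℓ0.le)
    have h4 : (w.im - T) / ℓ < (idx w : ℝ) + 1 := Nat.lt_floor_add_one _
    rw [le_div_iff₀ hℓ0] at h3
    rw [div_lt_iff₀ hℓ0] at h4
    constructor <;> linarith
  have hidx2 : ∀ w ∈ S, idx w ∈ Finset.range (J + 1) := by
    intro w hw
    obtain ⟨_, _, h1, h2⟩ := hS w hw
    rw [Finset.mem_range, Nat.lt_succ_iff]
    refine Nat.floor_le_floor ?_
    gcongr
    linarith
  -- every box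
  have hany : ∀ j : ℕ, j ≤ J → ∑ w ∈ S with idx w = j, m w ≤ 25 * a * L ^ 2 := by
    intro j hj
    have hj' : (j : ℝ) * ℓ ≤ T := by
      refine le_trans ?_ hJ2
      have : (j : ℝ) ≤ J := by exact_mod_cast hj
      gcongr
    set v : ℝ := T + j * ℓ with hv
    have hv1 : T ≤ v := by
      have : 0 ≤ (j : ℝ) * ℓ := by positivity
      linarith
    have hv2 : v ≤ 2 * T := by linarith
    have hlv1 : L ≤ Real.log v := Real.log_le_log hT0 hv1
    have hlv2 : Real.log v ≤ 11 / 10 * L := by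
      calc Real.log v ≤ Real.log (2 * T) := Real.log_le_log (by linarith) hv2
        _ = Real.log 2 + L := by rw [Real.log_mul (by norm_num) hT0.ne']
        _ ≤ _ := by
          have := Real.log_two_lt_d9
          linarith
    have h1 := hbox v (hTV₂.trans hv1) (S.filter fun w => idx w = j) (by
      intro w hw
      rw [Finset.mem_filter] at hw
      obtain ⟨g1, g2, g3, g4⟩ := hS w hw.1
      obtain ⟨g5, g6⟩ := hidx1 w hw.1
      rw [hw.2] at g5 g6
      have g7 : ℓ ≤ a * Real.log v := by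
        rw [hℓ]
        exact mul_le_mul hκa hlv1 hL0.le ha.le
      refine ⟨g1, g2.trans g7, ?_⟩
      rw [abs_le]
      constructor
      · linarith
      · linarith)
    refine h1.trans ?_
    have h2 : Real.log v ^ 2 ≤ (11 / 10 * L) ^ 2 := pow_le_pow_left₀ (by linarith) hlv2 2
    have h3 : 20 * a * Real.log v ^ 2 ≤ 20 * a * (11 / 10 * L) ^ 2 := mul_le_mul_of_nonneg_left h2 (by positivity)
    have h4 : 0 < a * L ^ 2 := by positivity
    nlinarith
  -- the good boxes
  have hgoodbox : ∀ j : ℕ, j < J → ¬ Set.Ico (T + (j : ℝ) * ℓ) (T + ((j : ℝ) + 1) * ℓ) ⊆ Bad →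
      ∑ w ∈ S with idx w = j, m w ≤ 20 * (κ ^ 2 / a) * L ^ 2 := by
    intro j hj hnot
    have hj' : ((j : ℝ) + 1) * ℓ ≤ T := by
      refine le_trans ?_ hJ2
      have : (j : ℝ) + 1 ≤ J := by exact_mod_cast hj
      gcongr
    obtain ⟨v, hv, hvB⟩ := Set.not_subset.1 hnot
    obtain ⟨hv1, hv2⟩ := hv
    have hjℓ : 0 ≤ (j : ℝ) * ℓ := by positivity
    have hvT : T ≤ v := by linarith
    have hv2T : v ≤ 2 * T := by linarith
    rw [hBad, Set.mem_ofPred_eq] at hvB
    push Not at hvB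
    obtain ⟨b, hb1, hb2, u, hu0, hu1, hbig⟩ := hvB hvT hv2T
    set v' : ℝ := v + u with hv'
    have hv'1 : T ≤ v' := by linarith
    have hv'3 : v' ≤ 3 * T := by linarith
    have hv'0 : 0 < v' := by linarith
    have hpi := Real.pi_gt_three
    have hpi4 := Real.pi_lt_d2
    set η : ℝ := a * Real.log (v' / (2 * Real.pi)) - 2 * a * (lam - Real.log b) with hη
    have hb0 : 0 ≤ Real.log b := Real.log_nonneg (by exact_mod_cast hb1)
    have hbP : Real.log b ≤ Real.log P := Real.log_le_log (by exact_mod_cast hb1) (by exact_mod_cast hb2)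
    have h2lam : 2 * a * lam = a * L - κ / 2 * L := by
      rw [hlam, hμ]
      field_simp
      ring
    have hlg1 : L - 2 ≤ Real.log (v' / (2 * Real.pi)) := by
      rw [Real.log_div hv'0.ne' (by positivity)]
      have h1 : L ≤ Real.log v' := Real.log_le_log hT0 hv'1
      have h2 : Real.log (2 * Real.pi) ≤ 2 := by
        rw [Real.log_le_iff_le_exp (by positivity)]
        have h3 : Real.exp 2 = Real.exp 1 * Real.exp 1 := by rw [← Real.exp_add]; norm_num
        have h4 := Real.exp_one_gt_d9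
        rw [h3]
        nlinarith
      linarith
    have hlg2 : Real.log (v' / (2 * Real.pi)) ≤ L := by
      refine Real.log_le_log (by positivity) ?_
      rw [div_le_iff₀ (by positivity)]
      nlinarith
    have hη0 : 0 ≤ η := by
      have h1 : a * (L - 2) ≤ a * Real.log (v' / (2 * Real.pi)) := mul_le_mul_of_nonneg_left hlg1 ha.le
      have h3 : 0 ≤ 2 * a * Real.log b := by positivity
      have h4 : 0 ≤ 2 * a * Real.log P := by positivity
      rw [hη]
      nlinarith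
    have hη1 : η ≤ κ * Real.log T := by
      have h1 : a * Real.log (v' / (2 * Real.pi)) ≤ a * L := mul_le_mul_of_nonneg_left hlg2 ha.le
      have h3 : 2 * a * Real.log b ≤ 2 * a * Real.log P := mul_le_mul_of_nonneg_left hbP (by positivity)
      rw [← hL, hη]
      nlinarith
    have hlameq : Real.log (v' / (2 * Real.pi)) / 2 - η / (2 * a) = lam - Real.log b := by
      rw [hη]
      field_simp
      ring
    have hr := hrepr v' (hTV₁.trans hv'1) η
    rw [hlameq] at hr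
    have hlow : T⁻¹ * ‖gam (2 + I * v')‖ ≤ ‖EE a (((3 / 2 + η : ℝ) : ℂ) + I * v')‖ := by
      set A := EE a (((3 / 2 + η : ℝ) : ℂ) + I * v') with hA
      set E : ℝ := Real.exp (η ^ 2 / (4 * a)) with hE
      have hE1 : 1 ≤ E := Real.one_le_exp (by positivity)
      set Bt := gam (2 + I * v') * ((E : ℝ) : ℂ) * DD a (lam - Real.log b) v' with hBt
      have hBn : ‖Bt‖ = ‖gam (2 + I * v')‖ * E * ‖DD a (lam - Real.log b) v'‖ := by
        rw [hBt, norm_mul, norm_mul, Complex.norm_real, Real.norm_eq_abs, abs_of_pos (by positivity)]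
      have h1 : ‖Bt‖ - ‖A - Bt‖ ≤ ‖A‖ := by
        have h2 : ‖Bt‖ ≤ ‖A‖ + ‖A - Bt‖ := by
          calc ‖Bt‖ = ‖A - (A - Bt)‖ := by congr 1; ring
            _ ≤ _ := norm_sub_le _ _
        linarith
      have h3 : C / v' ≤ C / T := div_le_div_of_nonneg_left hC.le hT0 hv'1
      have h4 : (C + 1) / T ≤ ‖DD a (lam - Real.log b) v'‖ := by
        refine le_trans ?_ hbig
        rw [Real.rpow_sub hT0, Real.rpow_one]
        gcongr
      have h5 : T⁻¹ ≤ ‖DD a (lam - Real.log b) v'‖ - C / v' := by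
        have h6 : (C + 1) / T = C / T + T⁻¹ := by
          rw [add_div, one_div]
        linarith
      have h7 : 0 ≤ ‖gam (2 + I * v')‖ := norm_nonneg _
      have h8 : ‖gam (2 + I * v')‖ * E * T⁻¹ ≤ ‖gam (2 + I * v')‖ * E * (‖DD a (lam - Real.log b) v'‖ - C / v') :=
        mul_le_mul_of_nonneg_left h5 (by positivity)
      have h9 : ‖gam (2 + I * v')‖ * 1 * T⁻¹ ≤ ‖gam (2 + I * v')‖ * E * T⁻¹ := by
        have : 0 ≤ T⁻¹ := by positivity
        gcongr
      have h10 : ‖A - Bt‖ ≤ C / v' * E * ‖gam (2 + I * v')‖ := hr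
      nlinarith
    have h1 := hgbox T v' η hTT₂ hv'1 (by linarith) hη0 hη1 hlow (S.filter fun w => idx w = j) (by
      intro w hw
      rw [Finset.mem_filter] at hw
      obtain ⟨g1, g2, g3, g4⟩ := hS w hw.1
      obtain ⟨g5, g6⟩ := hidx1 w hw.1
      rw [hw.2] at g5 g6
      refine ⟨g1, g2, ?_⟩
      have g8 : κ * Real.log T = ℓ := rfl
      rw [show 2 * κ * Real.log T = 2 * ℓ by rw [← g8]; ring, abs_le]
      rw [g8] at hu1
      constructor
      · linarith
      · linarith)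
    exact h1
  -- the number of the bad boxes
  classical
  set JB : Finset ℕ := (Finset.range J).filter
    (fun j => Set.Ico (T + (j : ℝ) * ℓ) (T + ((j : ℝ) + 1) * ℓ) ⊆ Bad) with hJB
  have hJBcard : (JB.card : ℝ) * ℓ ≤ δ * T := by
    have h1 : volume (⋃ j ∈ JB, Set.Ico (T + (j : ℝ) * ℓ) (T + ((j : ℝ) + 1) * ℓ)) ≤ ENNReal.ofReal (δ * T) := by
      refine (measure_mono ?_).trans hvol
      refine Set.iUnion₂_subset fun j hj => ?_
      rw [hJB, Finset.mem_filter] at hj
      exact hj.2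
    rw [measure_biUnion_finset] at h1
    · have h2 : ∀ j ∈ JB, volume (Set.Ico (T + (j : ℝ) * ℓ) (T + ((j : ℝ) + 1) * ℓ)) = ENNReal.ofReal ℓ := by
        intro j _
        rw [Real.volume_Ico]
        congr 1
        ring
      rw [Finset.sum_congr rfl h2, Finset.sum_const, nsmul_eq_mul, ← ENNReal.ofReal_natCast,
        ← ENNReal.ofReal_mul (Nat.cast_nonneg _)] at h1
      exact (ENNReal.ofReal_le_ofReal_iff (by positivity)).1 h1
    · intro i _ j _ hij
      rw [Function.onFun, Set.disjoint_left]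
      intro x hx hx'
      obtain ⟨p1, p2⟩ := hx
      obtain ⟨p3, p4⟩ := hx'
      rcases lt_or_gt_of_ne hij with h | h
      · have h5 : (i : ℝ) + 1 ≤ j := by exact_mod_cast h
        have h6 : ((i : ℝ) + 1) * ℓ ≤ j * ℓ := by gcongr
        linarith
      · have h5 : (j : ℝ) + 1 ≤ i := by exact_mod_cast h
        have h6 : ((j : ℝ) + 1) * ℓ ≤ i * ℓ := by gcongr
        linarith
    · intro j _
      exact measurableSet_Ico
  -- the sum
  have hsum : ∑ w ∈ S, m w = ∑ j ∈ Finset.range (J + 1), ∑ w ∈ S with idx w = j, m w :=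
    (Finset.sum_fiberwise_of_maps_to hidx2 _).symm
  have hsplit : ∑ j ∈ Finset.range J, ∑ w ∈ S with idx w = j, m w ≤
      (JB.card : ℝ) * (25 * a * L ^ 2) + (J : ℝ) * (20 * (κ ^ 2 / a) * L ^ 2) := by
    rw [← Finset.sum_filter_add_sum_filter_not (Finset.range J)
      (fun j : ℕ => Set.Ico (T + (j : ℝ) * ℓ) (T + ((j : ℝ) + 1) * ℓ) ⊆ Bad)]
    refine add_le_add ?_ ?_
    · have h1 : ∀ j ∈ JB, ∑ w ∈ S with idx w = j, m w ≤ 25 * a * L ^ 2 := by
        intro j hj
        rw [hJB, Finset.mem_filter, Finset.mem_range] at hj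
        exact hany j hj.1.le
      refine (Finset.sum_le_sum h1).trans ?_
      rw [Finset.sum_const, nsmul_eq_mul]
    · refine (Finset.sum_le_sum (g := fun _ => 20 * (κ ^ 2 / a) * L ^ 2) fun j hj => ?_).trans ?_
      · rw [Finset.mem_filter, Finset.mem_range] at hj
        exact hgoodbox j hj.1 hj.2
      · rw [Finset.sum_const, nsmul_eq_mul]
        refine mul_le_mul_of_nonneg_right ?_ (by positivity)
        have := Finset.card_filter_le (Finset.range J)
          (fun j : ℕ => ¬ Set.Ico (T + (j : ℝ) * ℓ) (T + ((j : ℝ) + 1) * ℓ) ⊆ Bad)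
        rw [Finset.card_range] at this
        exact_mod_cast this
  have hlast := hany J le_rfl
  have hfin1 : (JB.card : ℝ) * (25 * a * L ^ 2) ≤ 25 / 4 * (κ / a * T * L) := by
    have h1 : (JB.card : ℝ) ≤ δ * T / ℓ := by rwa [le_div_iff₀ hℓ0]
    calc (JB.card : ℝ) * (25 * a * L ^ 2) ≤ δ * T / ℓ * (25 * a * L ^ 2) :=
          mul_le_mul_of_nonneg_right h1 (by positivity)
      _ = _ := by
        rw [hδ, hℓ]
        field_simp
  have hfin2 : (J : ℝ) * (20 * (κ ^ 2 / a) * L ^ 2) ≤ 20 * (κ / a * T * L) := by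
    calc (J : ℝ) * (20 * (κ ^ 2 / a) * L ^ 2) ≤ T / ℓ * (20 * (κ ^ 2 / a) * L ^ 2) :=
          mul_le_mul_of_nonneg_right hJ1 (by positivity)
      _ = _ := by
        rw [hℓ]
        field_simp
  have hfin3 : 25 * a * L ^ 2 ≤ 20 * (κ / a * T * L) := by
    calc 25 * a * L ^ 2 = 25 * a * L * L := by ring
      _ ≤ 25 * a * L * (4 * κ / (5 * a ^ 2) * T) := mul_le_mul_of_nonneg_left hl2 (by positivity)
      _ = _ := by
        field_simp
        ring
  have hpos : 0 < κ / a * T * L := by positivity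
  rw [show ∑ w ∈ S, (analyticOrderNatAt (EE a) w : ℝ) = ∑ w ∈ S, m w from rfl, hsum, Finset.sum_range_succ]
  calc _ ≤ ((JB.card : ℝ) * (25 * a * L ^ 2) + (J : ℝ) * (20 * (κ ^ 2 / a) * L ^ 2)) + 25 * a * L ^ 2 :=
        add_le_add hsplit hlast
    _ ≤ 50 * (κ / a * T * L) := by linarith
    _ = _ := by ring

end Pool.Agent.J4H52.NG
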